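import Pool.Agent.H12.UCR.Stmts2
import Pool.Agent.H93.UCR.POW

/-!
# Board `ucr`, row RMU: multiplication by `r`
-/

set_option autoImplicit false

open MeasureTheory Filter Topology

namespace Pool.UCR

theorem rmu_A (p q r : ℕ) (μ : PP p) (ν : Measure UnitAddCircle)
    (hν : ν = ((μ.1 : ProbabilityMeasure UnitAddCircle) : Measure UnitAddCircle))
    (hA : ∀ k : ℕ, 1 ≤ k → Tendsto (fun N : ℕ => Av q (r * k) N (fc μ)) atTop (𝓝 0)) (j : ℤ)
    (hj : j ≠ 0) : Tendsto (fun N : ℕ => (N : ℂ)⁻¹ * ∑ n ∈ Finset.range N,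
      powC ν (((r : ℤ) * j) * (q : ℤ) ^ n)) atTop (𝓝 0) := by
  have key : ∀ k : ℕ, 1 ≤ k → Tendsto (fun N : ℕ => (N : ℂ)⁻¹ * ∑ n ∈ Finset.range N,
      powC ν (((r : ℤ) * (k : ℤ)) * (q : ℤ) ^ n)) atTop (𝓝 0) := by
    intro k hk
    refine (hA k hk).congr fun N => ?_
    unfold Av
    congr 1
    refine Finset.sum_congr rfl fun n _ => ?_
    unfold fc powC
    rw [hν]
    push_cast
    rfl
  rcases lt_or_gt_of_ne hj with h | h
  · obtain ⟨k, hk⟩ : ∃ k : ℕ, j = -(k : ℤ) := ⟨j.natAbs, by omega⟩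
    have hk1 : 1 ≤ k := by omega
    have h1 := (Complex.continuous_conj.tendsto 0).comp (key k hk1)
    rw [map_zero] at h1
    refine h1.congr fun N => ?_
    simp only [Function.comp]
    rw [map_mul, map_sum, map_inv₀, Complex.conj_natCast]
    congr 1
    refine Finset.sum_congr rfl fun n _ => ?_
    rw [← powC_neg, hk, mul_neg, neg_mul]
  · obtain ⟨k, hk⟩ : ∃ k : ℕ, j = (k : ℤ) := ⟨j.natAbs, by omega⟩
    rw [hk]
    exact key k (by omega)

/-- the part of the trigonometric polynomial with `t ∈ A` -/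
noncomputable def rmuF (k q : ℕ) (A : Finset ℕ) (y : UnitAddCircle) : ℂ :=
  ∑ t ∈ A, (fourier (k : ℤ) ((q ^ t) • y) : ℂ)

theorem rmuF_cont (k q : ℕ) (A : Finset ℕ) : Continuous (rmuF k q A) := by
  unfold rmuF
  fun_prop

theorem rmuF_sq (k q : ℕ) (A : Finset ℕ) (a : ℕ) (x : UnitAddCircle) :
    ((‖rmuF k q A (a • x)‖ ^ 2 : ℝ) : ℂ) = ∑ s ∈ A, ∑ t ∈ A,
      (fourier (((k : ℤ) * (q : ℤ) ^ s - (k : ℤ) * (q : ℤ) ^ t) * (a : ℤ)) x : ℂ) := by
  have h1 : ((‖rmuF k q A (a • x)‖ ^ 2 : ℝ) : ℂ) =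
      rmuF k q A (a • x) * (starRingEnd ℂ) (rmuF k q A (a • x)) := by
    rw [Complex.mul_conj']
    push_cast
    rfl
  rw [h1]
  unfold rmuF
  rw [map_sum, Finset.sum_mul_sum]
  refine Finset.sum_congr rfl fun s _ => Finset.sum_congr rfl fun t _ => ?_
  rw [pow_four, pow_four, pow_four, pow_four, ← fourier_neg, ← fourier_add]
  have e : (k : ℤ) * ((q ^ s : ℕ) : ℤ) * (a : ℤ) + -((k : ℤ) * ((q ^ t : ℕ) : ℤ) * (a : ℤ)) =
      ((k : ℤ) * (q : ℤ) ^ s - (k : ℤ) * (q : ℤ) ^ t) * (a : ℤ) := by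
    push_cast
    ring
  rw [e]

theorem rmuF_int (ν : Measure UnitAddCircle) [IsProbabilityMeasure ν] (k q : ℕ) (A : Finset ℕ)
    (a : ℕ) :
    ((∫ x, ‖rmuF k q A (a • x)‖ ^ 2 ∂ν : ℝ) : ℂ) = ∑ s ∈ A, ∑ t ∈ A,
      powC ν (((k : ℤ) * (q : ℤ) ^ s - (k : ℤ) * (q : ℤ) ^ t) * (a : ℤ)) := by
  rw [← integral_complex_ofReal]
  simp only [rmuF_sq]
  rw [integral_finsetSum]
  · refine Finset.sum_congr rfl fun s _ => ?_
    rw [integral_finsetSum]
    · rfl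
    · intro t _
      exact pow_cint ν (by fun_prop)
  · intro s _
    exact pow_cint ν (by fun_prop)

theorem rmu_lim (p q r : ℕ) (μ : PP p) (hq : 2 ≤ q) (ν : Measure UnitAddCircle)
    [IsProbabilityMeasure ν]
    (hν : ν = ((μ.1 : ProbabilityMeasure UnitAddCircle) : Measure UnitAddCircle))
    (hA : ∀ k : ℕ, 1 ≤ k → Tendsto (fun N : ℕ => Av q (r * k) N (fc μ)) atTop (𝓝 0))
    (k : ℕ) (hk : 1 ≤ k) (A : Finset ℕ)
    (hd : ∀ s ∈ A, ∀ t ∈ A, (r : ℤ) ∣ (k : ℤ) * (q : ℤ) ^ s - (k : ℤ) * (q : ℤ) ^ t) :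
    Tendsto (fun N : ℕ => (N : ℝ)⁻¹ * ∑ n ∈ Finset.range N,
      ∫ x, ‖rmuF k q A ((q ^ n) • x)‖ ^ 2 ∂ν) atTop (𝓝 (A.card : ℝ)) := by
  have h1 : Tendsto (fun N : ℕ => ∑ s ∈ A, ∑ t ∈ A,
      ((N : ℂ)⁻¹ * ∑ n ∈ Finset.range N, powC ν
        (((k : ℤ) * (q : ℤ) ^ s - (k : ℤ) * (q : ℤ) ^ t) * (q : ℤ) ^ n))) atTop
      (𝓝 (∑ s ∈ A, ∑ t ∈ A, if s = t then (1 : ℂ) else 0)) := by
    refine tendsto_finsetSum _ fun s hs => tendsto_finsetSum _ fun t ht => ?_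
    by_cases hst : s = t
    · subst hst
      simp only [sub_self, zero_mul, powC_zero, Finset.sum_const, Finset.card_range, nsmul_eq_mul,
        mul_one, if_true]
      refine tendsto_const_nhds.congr' ?_
      filter_upwards [eventually_ge_atTop 1] with N hN
      have hN0 : (N : ℂ) ≠ 0 := by exact_mod_cast (by omega : N ≠ 0)
      field_simp
    · rw [if_neg hst]
      obtain ⟨j, hj⟩ := hd s hs t ht
      rw [hj]
      refine rmu_A p q r μ ν hν hA j ?_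
      intro h0
      rw [h0, mul_zero] at hj
      have h2 : (k : ℤ) * (q : ℤ) ^ s = (k : ℤ) * (q : ℤ) ^ t := by linarith
      have h3 : (k : ℤ) ≠ 0 := by exact_mod_cast (by omega : k ≠ 0)
      have h4 := mul_left_cancel₀ h3 h2
      have h5 : q ^ s = q ^ t := by exact_mod_cast h4
      exact hst (Nat.pow_right_injective hq h5)
  have h2 : (∑ s ∈ A, ∑ t ∈ A, if s = t then (1 : ℂ) else 0) = ((A.card : ℝ) : ℂ) := by
    have : ∀ s ∈ A, (∑ t ∈ A, if s = t then (1 : ℂ) else 0) = 1 := by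
      intro s hs
      rw [Finset.sum_ite_eq, if_pos hs]
    rw [Finset.sum_congr rfl this]
    simp
  rw [h2] at h1
  have h3 := (Complex.continuous_re.tendsto _).comp h1
  rw [Complex.ofReal_re] at h3
  refine h3.congr fun N => ?_
  simp only [Function.comp]
  have h4 : (∑ s ∈ A, ∑ t ∈ A,
      ((N : ℂ)⁻¹ * ∑ n ∈ Finset.range N, powC ν
        (((k : ℤ) * (q : ℤ) ^ s - (k : ℤ) * (q : ℤ) ^ t) * (q : ℤ) ^ n))) =
      (((N : ℝ)⁻¹ * ∑ n ∈ Finset.range N,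
        ∫ x, ‖rmuF k q A ((q ^ n) • x)‖ ^ 2 ∂ν : ℝ) : ℂ) := by
    have h5 : ∀ n : ℕ, ((∫ x, ‖rmuF k q A ((q ^ n) • x)‖ ^ 2 ∂ν : ℝ) : ℂ) =
        ∑ s ∈ A, ∑ t ∈ A, powC ν
          (((k : ℤ) * (q : ℤ) ^ s - (k : ℤ) * (q : ℤ) ^ t) * (q : ℤ) ^ n) := by
      intro n
      rw [rmuF_int]
      push_cast
      rfl
    rw [Complex.ofReal_mul, Complex.ofReal_sum]
    simp only [h5]
    simp only [← Finset.mul_sum]
    rw [Complex.ofReal_inv, Complex.ofReal_natCast]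
    congr 1
    rw [Finset.sum_congr rfl fun s _ => Finset.sum_comm]
    exact Finset.sum_comm
  rw [h4, Complex.ofReal_re]

/-- the residue class of exponents -/
def rmuC (k q T r a : ℕ) : Finset ℕ := (Finset.range T).filter fun t => (k * q ^ t) % r = a

theorem rmu_split (k q T r : ℕ) (hr : 1 ≤ r) (y : UnitAddCircle) :
    ∑ a ∈ Finset.range r, rmuF k q (rmuC k q T r a) y = powG k q T y := by
  unfold rmuF rmuC powG
  exact Finset.sum_fiberwise_of_maps_to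
    (fun t _ => Finset.mem_range.2 (Nat.mod_lt _ (by omega))) _

theorem rmu_card (k q T r : ℕ) (hr : 1 ≤ r) :
    ∑ a ∈ Finset.range r, (rmuC k q T r a).card = T := by
  have h := Finset.card_eq_sum_card_fiberwise (s := Finset.range T) (t := Finset.range r)
    (f := fun t => (k * q ^ t) % r)
    (fun t _ => Finset.mem_coe.2 (Finset.mem_range.2 (Nat.mod_lt _ (by omega))))
  rw [Finset.card_range] at h
  exact h.symm

theorem rmu_dvd (k q T r a : ℕ) : ∀ s ∈ rmuC k q T r a, ∀ t ∈ rmuC k q T r a,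
    (r : ℤ) ∣ (k : ℤ) * (q : ℤ) ^ s - (k : ℤ) * (q : ℤ) ^ t := by
  intro s hs t ht
  have h1 := (Finset.mem_filter.1 hs).2
  have h2 := (Finset.mem_filter.1 ht).2
  have h3 : (k * q ^ t) ≡ (k * q ^ s) [MOD r] := by
    unfold Nat.ModEq
    rw [h1, h2]
  have h4 := (Nat.modEq_iff_dvd).1 h3
  push_cast at h4
  exact h4

theorem rmu_le (k q T r : ℕ) (hr : 1 ≤ r) (y : UnitAddCircle) :
    ‖powG k q T y‖ ^ 2 ≤ (r : ℝ) * ∑ a ∈ Finset.range r, ‖rmuF k q (rmuC k q T r a) y‖ ^ 2 := by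
  rw [← rmu_split k q T r hr y]
  have h1 : ‖∑ a ∈ Finset.range r, rmuF k q (rmuC k q T r a) y‖ ≤
      ∑ a ∈ Finset.range r, ‖rmuF k q (rmuC k q T r a) y‖ := norm_sum_le _ _
  have h2 : (∑ a ∈ Finset.range r, ‖rmuF k q (rmuC k q T r a) y‖) ^ 2 ≤
      (r : ℝ) * ∑ a ∈ Finset.range r, ‖rmuF k q (rmuC k q T r a) y‖ ^ 2 := by
    have := sq_sum_le_card_mul_sum_sq (s := Finset.range r)
      (f := fun a => ‖rmuF k q (rmuC k q T r a) y‖)
    simpa using this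
  exact (pow_le_pow_left₀ (norm_nonneg _) h1 2).trans h2

/-- the majorant -/
noncomputable def rmuH (ν : Measure UnitAddCircle) (k q T r n : ℕ) : ℝ :=
  (r : ℝ) * ∑ a ∈ Finset.range r, ∫ x, ‖rmuF k q (rmuC k q T r a) ((q ^ n) • x)‖ ^ 2 ∂ν

theorem rmu_intle (ν : Measure UnitAddCircle) [IsProbabilityMeasure ν] (k q T r n : ℕ)
    (hr : 1 ≤ r) : ∫ x, ‖powG k q T ((q ^ n) • x)‖ ^ 2 ∂ν ≤ rmuH ν k q T r n := by
  have hc : ∀ a : ℕ, Continuous fun x : UnitAddCircle =>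
      ‖rmuF k q (rmuC k q T r a) ((q ^ n) • x)‖ ^ 2 := by
    intro a
    exact (((rmuF_cont k q (rmuC k q T r a)).comp (by fun_prop)).norm).pow 2
  have hg : Continuous fun x : UnitAddCircle => ‖powG k q T ((q ^ n) • x)‖ ^ 2 :=
    (((powG_cont k q T).comp (by fun_prop)).norm).pow 2
  have hs : Continuous fun x : UnitAddCircle => (r : ℝ) * ∑ a ∈ Finset.range r,
      ‖rmuF k q (rmuC k q T r a) ((q ^ n) • x)‖ ^ 2 := by
    refine continuous_const.mul (continuous_finsetSum _ fun a _ => hc a)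
  have h1 := integral_mono (pow_cint ν hg) (pow_cint ν hs)
    (fun x => rmu_le k q T r hr ((q ^ n) • x))
  refine h1.trans (le_of_eq ?_)
  unfold rmuH
  rw [integral_const_mul, integral_finsetSum]
  intro a _
  exact pow_cint ν (hc a)

theorem rmu_limH (p q r : ℕ) (μ : PP p) (hq : 2 ≤ q) (hr : 1 ≤ r) (ν : Measure UnitAddCircle)
    [IsProbabilityMeasure ν]
    (hν : ν = ((μ.1 : ProbabilityMeasure UnitAddCircle) : Measure UnitAddCircle))
    (hA : ∀ k : ℕ, 1 ≤ k → Tendsto (fun N : ℕ => Av q (r * k) N (fc μ)) atTop (𝓝 0))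
    (k : ℕ) (hk : 1 ≤ k) (T : ℕ) :
    Tendsto (fun N : ℕ => (N : ℝ)⁻¹ * ∑ n ∈ Finset.range N, rmuH ν k q T r n) atTop
      (𝓝 ((r : ℝ) * T)) := by
  have h1 : Tendsto (fun N : ℕ => (r : ℝ) * ∑ a ∈ Finset.range r, ((N : ℝ)⁻¹ *
      ∑ n ∈ Finset.range N, ∫ x, ‖rmuF k q (rmuC k q T r a) ((q ^ n) • x)‖ ^ 2 ∂ν)) atTop
      (𝓝 ((r : ℝ) * ∑ a ∈ Finset.range r, ((rmuC k q T r a).card : ℝ))) := by
    refine Tendsto.const_mul _ (tendsto_finsetSum _ fun a _ => ?_)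
    exact rmu_lim p q r μ hq ν hν hA k hk _ (rmu_dvd k q T r a)
  have h2 : (∑ a ∈ Finset.range r, ((rmuC k q T r a).card : ℝ)) = (T : ℝ) := by
    have := rmu_card k q T r hr
    exact_mod_cast this
  rw [h2] at h1
  refine h1.congr fun N => ?_
  unfold rmuH
  rw [← Finset.mul_sum, ← Finset.mul_sum, Finset.sum_comm]
  ring

theorem rmu_thm : RMUS := by
  intro p q r μ hq hr hA k hk
  obtain ⟨ν, hν⟩ : ∃ ν : Measure UnitAddCircle,
    ν = ((μ.1 : ProbabilityMeasure UnitAddCircle) : Measure UnitAddCircle) := ⟨_, rfl⟩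
  have : IsProbabilityMeasure ν := by rw [hν]; infer_instance
  have hc1 : ∀ j : ℕ, fc μ j = powC ν (j : ℤ) := by
    intro j
    rw [hν]
    rfl
  rw [Metric.tendsto_atTop]
  intro ε hε
  obtain ⟨T, hT⟩ := exists_nat_gt (4 * r / ε ^ 2)
  have hm0 : (0 : ℝ) < r := by exact_mod_cast hr
  have hT0 : (0 : ℝ) < T := lt_trans (by positivity) hT
  have hT1 : (r : ℝ) * T < (ε * T / 2) ^ 2 := by
    rw [div_lt_iff₀ (by positivity)] at hT
    nlinarith
  have hlim := rmu_limH p q r μ hq hr ν hν hA k hk T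
  have ev1 := hlim.eventually (gt_mem_nhds hT1)
  have ev2 : ∀ᶠ N : ℕ in atTop, 2 * (T : ℝ) ^ 2 / N < ε * T / 2 := by
    have h0 : Tendsto (fun N : ℕ => 2 * (T : ℝ) ^ 2 / (N : ℝ)) atTop (𝓝 0) :=
      tendsto_const_nhds.div_atTop tendsto_natCast_atTop_atTop
    exact h0.eventually (gt_mem_nhds (by positivity))
  obtain ⟨N0, hN0⟩ := eventually_atTop.1 ((ev1.and ev2).and (eventually_ge_atTop 1))
  refine ⟨N0, fun N hN => ?_⟩
  obtain ⟨⟨b1, b2⟩, b3⟩ := hN0 N hN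
  have hNp : (0 : ℝ) < N := by exact_mod_cast b3
  rw [dist_zero_right]
  set z : ℕ → ℂ := fun n => ∫ x, powG k q T ((q ^ n) • x) ∂ν with hz
  have hzH : ∀ n, ‖z n‖ ^ 2 ≤ rmuH ν k q T r n := by
    intro n
    have h1 := pow_cs ν (f := fun x => powG k q T ((q ^ n) • x))
      ((powG_cont k q T).comp (by fun_prop))
    simp only [hz]
    exact h1.trans (rmu_intle ν k q T r n hr)
  have hzc : ∀ n, z n = ∑ t ∈ Finset.range T, fc μ (k * q ^ (n + t)) := by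
    intro n
    simp only [hz]
    unfold powG
    rw [integral_finsetSum]
    · refine Finset.sum_congr rfl fun t _ => ?_
      rw [hc1]
      unfold powC
      refine integral_congr_ae (Eventually.of_forall fun x => ?_)
      simp only []
      rw [pow_four, pow_four]
      have e : (k : ℤ) * ((q ^ t : ℕ) : ℤ) * ((q ^ n : ℕ) : ℤ) = ((k * q ^ (n + t) : ℕ) : ℤ) := by
        push_cast
        ring
      rw [e]
    · intro t _
      exact pow_cint ν (by fun_prop)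
  have s1 : ‖(N : ℂ)⁻¹ * ∑ n ∈ Finset.range N, z n‖ ^ 2 < (ε * T / 2) ^ 2 := by
    refine lt_of_le_of_lt (pow_mean_sq N z) (lt_of_le_of_lt ?_ b1)
    refine mul_le_mul_of_nonneg_left ?_ (by positivity)
    exact Finset.sum_le_sum fun n _ => hzH n
  have s2 : ‖(N : ℂ)⁻¹ * ∑ n ∈ Finset.range N, z n‖ < ε * T / 2 :=
    lt_of_pow_lt_pow_left₀ 2 (by positivity) s1
  have s3 : ‖∑ n ∈ Finset.range N, z n - (T : ℂ) * ∑ n ∈ Finset.range N, fc μ (k * q ^ n)‖ ≤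
      2 * (T : ℝ) ^ 2 := by
    have e1 : ∑ n ∈ Finset.range N, z n =
        ∑ t ∈ Finset.range T, ∑ n ∈ Finset.range N, fc μ (k * q ^ (n + t)) := by
      simp only [hzc]
      exact Finset.sum_comm
    have e2 : (T : ℂ) * ∑ n ∈ Finset.range N, fc μ (k * q ^ n) =
        ∑ t ∈ Finset.range T, ∑ n ∈ Finset.range N, fc μ (k * q ^ n) := by
      rw [Finset.sum_const, Finset.card_range, nsmul_eq_mul]
    rw [e1, e2, ← Finset.sum_sub_distrib]
    refine (norm_sum_le _ _).trans ?_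
    have e3 : ∀ t ∈ Finset.range T, ‖∑ n ∈ Finset.range N, fc μ (k * q ^ (n + t)) -
        ∑ n ∈ Finset.range N, fc μ (k * q ^ n)‖ ≤ 2 * (T : ℝ) := by
      intro t ht
      have h2 : (t : ℝ) ≤ T := by exact_mod_cast (Finset.mem_range.1 ht).le
      refine le_trans (pow_shift (fun n => fc μ (k * q ^ n)) (fun n => by
        simp only [hc1]
        exact powC_norm ν _) N t) ?_
      linarith
    refine (Finset.sum_le_sum e3).trans ?_
    rw [Finset.sum_const, Finset.card_range, nsmul_eq_mul]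
    apply le_of_eq
    ring
  have s4 : (T : ℂ) * Av q k N (fc μ) = (N : ℂ)⁻¹ * ∑ n ∈ Finset.range N, z n -
      (N : ℂ)⁻¹ * (∑ n ∈ Finset.range N, z n -
        (T : ℂ) * ∑ n ∈ Finset.range N, fc μ (k * q ^ n)) := by
    unfold Av
    ring
  have s5 : (T : ℝ) * ‖Av q k N (fc μ)‖ < ε * T := by
    have h1 : (T : ℝ) * ‖Av q k N (fc μ)‖ = ‖(T : ℂ) * Av q k N (fc μ)‖ := by
      rw [norm_mul, Complex.norm_natCast]
    rw [h1, s4]
    refine lt_of_le_of_lt (norm_sub_le _ _) ?_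
    have h2 : ‖(N : ℂ)⁻¹ * (∑ n ∈ Finset.range N, z n -
        (T : ℂ) * ∑ n ∈ Finset.range N, fc μ (k * q ^ n))‖ ≤ 2 * (T : ℝ) ^ 2 / N := by
      rw [norm_mul, norm_inv, Complex.norm_natCast, inv_mul_eq_div]
      exact div_le_div_of_nonneg_right s3 hNp.le
    linarith
  nlinarith

end Pool.UCR
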